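import Pool.Agent.VB.C

/-!
# Pieces, tameness, closed sets
-/

set_option autoImplicit false
set_option linter.unusedSectionVars false
set_option linter.unusedVariables false

namespace Pool.Agent.Helper97.LO

open Set Pool.Agent.Helper5.DU Pool.Agent.Helper6.Str Pool.Agent.Helper79.VC
  Pool.Agent.Helper97.VC Pool.Agent.Helper97.MD

variable {L : FirstOrder.Language.{0, 0}} {M N P : Type}

theorem countable_finset_subset {A : Set M} (hA : A.Countable) :
    {F : Finset M | (F : Set M) ⊆ A}.Countable := by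
  have h1 : {t : Set M | t.Finite ∧ t ⊆ A}.Countable := countable_ofPred_finite_subset hA
  refine (h1.preimage (f := fun F : Finset M => (F : Set M)) Finset.coe_injective).mono ?_
  intro F hF
  exact ⟨F.finite_toSet, hF⟩

/-- closing off in both directions -/
theorem exists_pair (f : Finset M → Ordinal.{0} → Set M) (hf : ∀ F, ∀ γ < om1, (f F γ).Countable)
    (h : Finset M → Ordinal.{0} → Ordinal.{0}) (hh : ∀ F, ∀ γ < om1, h F γ < om1) {A₀ : Set M}
    (hA₀ : A₀.Countable) {μ : Ordinal.{0}} (hμ : μ < om1) :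
    ∃ (A : Set M) (lam : Ordinal.{0}), A.Countable ∧ A₀ ⊆ A ∧ μ < lam ∧ lam < om1 ∧
      (∀ a < lam, ∀ b < lam, a + b < lam) ∧
      ∀ F : Finset M, (F : Set M) ⊆ A → ∀ γ < lam, f F γ ⊆ A ∧ h F γ < lam := by
  classical
  let W := {w : Set M × Ordinal.{0} // w.1.Countable ∧ w.2 < om1}
  have hstep : ∀ w : W, ∃ w' : W, w.1.1 ⊆ w'.1.1 ∧ w.1.2 ≤ w'.1.2 ∧
      (∀ a < w.1.2, ∀ b < w.1.2, a + b < w'.1.2) ∧
      ∀ F : Finset M, (F : Set M) ⊆ w.1.1 → ∀ γ < w.1.2, f F γ ⊆ w'.1.1 ∧ h F γ < w'.1.2 := by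
    rintro ⟨⟨A, l⟩, hA, hl⟩
    have hF := countable_finset_subset hA
    have hI := countable_Iio hl
    have hct : ({F : Finset M | (F : Set M) ⊆ A} ×ˢ Iio l).Countable := hF.prod hI
    have := hct.to_subtype
    obtain ⟨B, hB, hBle⟩ := exists_bound (ι := ({F : Finset M | (F : Set M) ⊆ A} ×ˢ Iio l :
      Set (Finset M × Ordinal.{0}))) (f := fun x => h x.1.1 x.1.2)
      (fun x => hh _ _ ((mem_Iio.1 x.2.2).trans hl))
    refine ⟨⟨(A ∪ ⋃ x ∈ {F : Finset M | (F : Set M) ⊆ A} ×ˢ Iio l, f x.1 x.2, l + l + (B + 1)),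
      hA.union (hct.biUnion fun x hx => hf _ _ ((mem_Iio.1 hx.2).trans hl)),
      add_lt_om1 (add_lt_om1 hl hl) (add_one_lt_om1 hB)⟩, subset_union_left, ?_, ?_, ?_⟩
    · exact le_self_add.trans le_self_add
    · intro a ha b hb
      have h1 : a + b < l + l := (add_lt_add_right hb a).trans_le (by gcongr)
      exact h1.trans_le le_self_add
    · intro F hF γ hγ
      refine ⟨?_, ?_⟩
      · refine Subset.trans ?_ subset_union_right
        exact subset_biUnion_of_mem (u := fun x : Finset M × Ordinal.{0} => f x.1 x.2)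
          (show (F, γ) ∈ {F : Finset M | (F : Set M) ⊆ A} ×ˢ Iio l from ⟨hF, hγ⟩)
      · have h1 : h F γ ≤ B := hBle ⟨(F, γ), hF, hγ⟩
        have h2 : B < B + 1 := lt_add_one_self B
        exact (h1.trans_lt h2).trans_le le_add_self
  choose st hst1 hst2 hst3 hst4 using hstep
  let w₀ : W := ⟨(A₀, μ + 1), hA₀, add_one_lt_om1 hμ⟩
  let s : ℕ → W := fun n => Nat.rec w₀ (fun _ w => st w) n
  have hs : ∀ n, s (n + 1) = st (s n) := fun _ => rfl
  have hmonoA : Monotone fun n => (s n).1.1 := monotone_nat_of_le_succ fun n => by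
    show (s n).1.1 ⊆ (s (n + 1)).1.1
    rw [hs]
    exact hst1 _
  have hmonoL : Monotone fun n => (s n).1.2 := monotone_nat_of_le_succ fun n => by
    show (s n).1.2 ≤ (s (n + 1)).1.2
    rw [hs]
    exact hst2 _
  have hle : ∀ n, (s n).1.2 ≤ ⨆ n, (s n).1.2 := fun n => Ordinal.le_iSup (fun n => (s n).1.2) n
  have hlt : ∀ a < ⨆ n, (s n).1.2, ∃ n, a < (s n).1.2 := fun a ha => Ordinal.lt_iSup_iff.1 ha
  refine ⟨⋃ n, (s n).1.1, ⨆ n, (s n).1.2, countable_iUnion fun n => (s n).2.1,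
    subset_iUnion (fun n => (s n).1.1) 0, ?_, iSup_lt_om1 fun n => (s n).2.2, ?_, ?_⟩
  · exact (lt_add_one_self μ).trans_le (hle 0)
  · intro a ha b hb
    obtain ⟨n, hn⟩ := hlt a ha
    obtain ⟨k, hk⟩ := hlt b hb
    have h1 := hst3 (s (max n k)) a (hn.trans_le (hmonoL (le_max_left _ _))) b
      (hk.trans_le (hmonoL (le_max_right _ _)))
    exact h1.trans_le (hle (max n k + 1))
  · intro F hF γ hγ
    obtain ⟨k, hk⟩ := hlt γ hγ
    obtain ⟨n, hn⟩ : ∃ n, (F : Set M) ⊆ (s n).1.1 := by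
      induction F using Finset.induction_on with
      | empty => exact ⟨0, by simp⟩
      | insert a F _ ih =>
        rw [Finset.coe_insert, insert_subset_iff] at hF
        obtain ⟨n, hn⟩ := ih hF.2
        obtain ⟨m, hm⟩ := mem_iUnion.mp hF.1
        refine ⟨max m n, ?_⟩
        rw [Finset.coe_insert, insert_subset_iff]
        exact ⟨hmonoA (le_max_left _ _) hm, hn.trans (hmonoA (le_max_right _ _))⟩
    have h1 := hst4 (s (max n k)) F (hn.trans (hmonoA (le_max_left _ _))) γ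
      (hk.trans_le (hmonoL (le_max_right _ _)))
    exact ⟨h1.1.trans (subset_iUnion (fun n => (s n).1.1) (max n k + 1)),
      h1.2.trans_le (hle (max n k + 1))⟩

/-- Definable subpieces of small pieces are small. -/
theorem Small.sub {S : L.Structure M} {X X' : Set M} (h : Small S X) (F : Finset M)
    (hF : (F : Set M) ⊆ X) (hX' : X' ⊆ X) {κ : Ordinal.{0}} (hκ : κ < om1)
    (H : ∀ c ∈ X, ∀ c' ∈ X, BFR S S X X κ (insert (c, c') (dg (F : Set M))) →
      (c ∈ X' ↔ c' ∈ X')) : Small S X' := by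
  classical
  intro γ hγ G hG
  obtain ⟨ρ, hρ⟩ := h (κ + γ) (add_lt_om1 hκ hγ) (F ∪ G) (by
    rw [Finset.coe_union]
    exact union_subset hF (hG.trans hX'))
  refine ⟨ρ, fun c hc c' hc' hcc => ?_⟩
  have h1 := hρ c (hX' hc) c' (hX' hc') hcc
  have h2 := BFR.restr hX' hX' κ γ (p := insert (c, c') (dg ((F ∪ G : Finset M) : Set M)))
    (fun x hx y hy hxy => H x hx y hy (BFR.anti (insert_subset_insert ?_) hxy)) h1
  · refine BFR.anti (insert_subset_insert (image_mono ?_)) h2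
    rw [Finset.coe_union]
    exact subset_union_right
  · refine (image_mono ?_).trans (subset_insert _ _)
    rw [Finset.coe_union]
    exact subset_union_left

/-- representatives of a colouring -/
theorem exists_reps {X : Set M} (κ : M → ℕ) : ∃ R : Set M, R.Countable ∧ R ⊆ X ∧
    ∀ c ∈ X, ∃ d ∈ R, κ c = κ d := by
  classical
  have hch : ∀ n : (κ '' X : Set ℕ), ∃ x, x ∈ X ∧ κ x = n.1 := fun n => n.2
  choose r hr1 hr2 using hch
  refine ⟨range r, countable_range r, ?_, fun c hc => ?_⟩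
  · rintro _ ⟨n, rfl⟩
    exact hr1 n
  · exact ⟨r ⟨κ c, mem_image_of_mem _ hc⟩, mem_range_self _,
      (hr2 ⟨κ c, mem_image_of_mem _ hc⟩).symm⟩

/-- countable sets of witnesses for a small piece -/
theorem Small.exists_wit {S : L.Structure M} {X : Set M} (h : Small S X) :
    ∃ f : Finset M → Ordinal.{0} → Set M, (∀ F, ∀ γ, (f F γ).Countable) ∧ (∀ F γ, f F γ ⊆ X) ∧
      ∀ (A : Set M) (γ : Ordinal.{0}), γ < om1 →
        (∀ F : Finset M, (F : Set M) ⊆ A ∩ X → f F γ ⊆ A) → Clo S X γ A := by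
  classical
  have hch : ∀ (F : Finset M) (γ : Ordinal.{0}), ∃ R : Set M, R.Countable ∧ R ⊆ X ∧
      (γ < om1 → (F : Set M) ⊆ X → ∀ c ∈ X, ∃ d ∈ R,
        BFR S S X X γ (insert (c, d) (dg (F : Set M)))) := by
    intro F γ
    by_cases hFγ : γ < om1 ∧ (F : Set M) ⊆ X
    · obtain ⟨κ, hκ⟩ := h γ hFγ.1 F hFγ.2
      obtain ⟨R, hR1, hR2, hR3⟩ := exists_reps (X := X) κ
      refine ⟨R, hR1, hR2, fun _ _ c hc => ?_⟩
      obtain ⟨d, hd, hcd⟩ := hR3 c hc
      exact ⟨d, hd, hκ c hc d (hR2 hd) hcd⟩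
    · exact ⟨∅, countable_empty, empty_subset _, fun h1 h2 => absurd ⟨h1, h2⟩ hFγ⟩
  choose f hf1 hf2 hf3 using hch
  refine ⟨f, hf1, hf2, fun A γ hγ hA F hF c hc => ?_⟩
  obtain ⟨d, hd, hcd⟩ := hf3 F γ hγ (hF.trans inter_subset_right) c hc
  exact ⟨d, ⟨hA F hF hd, hf2 F γ hd⟩, hcd⟩

/-- a tame piece has countably many types over finite sets -/
theorem TameX.types {S : L.Structure M} {X : Set M} (h : TameX S X) (F : Finset M)
    (hF : (F : Set M) ⊆ X) : ∃ κ : M → ℕ, ∀ c ∈ X, ∀ c' ∈ X, κ c = κ c' →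
      BFI S S X X (insert (c, c') (dg (F : Set M))) := by
  classical
  obtain ⟨α, hα, hSL⟩ := h.exists_SL
  obtain ⟨N, S', Y, hY, hXY⟩ := h
  let e := F.equivFin
  let a : Fin F.card → M := fun i => (e.symm i).1
  have ha : ∀ i, a i ∈ X := fun i => hF (e.symm i).2
  have haF : ∀ x ∈ F, ∃ i, a i = x := fun x hx => ⟨e ⟨x, hx⟩, by simp [a]⟩
  obtain ⟨b, hb, hab⟩ := BFR.forth_many F.card
    (hXY (α + 1 + (F.card : Ordinal.{0})) (add_lt_om1 (add_one_lt_om1 hα) (natCast_lt_om1 _))) a ha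
  rw [empty_union] at hab
  have hy : ∀ c ∈ X, ∃ y ∈ Y, BFI S S' X Y (insert (c, y) (range fun i => (a i, b i))) := by
    intro c hc
    obtain ⟨y, hyY, hy⟩ := hab.forth (lt_add_one_self α) hc
    refine ⟨y, hyY, fun γ _ => hSL.det hα (hXY _ (add_lt_om1 hα omega_lt_om1)) γ
      ((finite_range _).insert _) ?_ hy⟩
    rintro z (rfl | ⟨i, rfl⟩)
    · exact ⟨hc, hyY⟩
    · exact ⟨ha i, hb i⟩
  choose y hyY hy using hy
  have := hY.to_subtype
  obtain ⟨g, hg⟩ := exists_injective_nat Y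
  refine ⟨fun c => if hc : c ∈ X then g ⟨y c hc, hyY c hc⟩ else 0, fun c hc c' hc' hcc => ?_⟩
  simp only [dif_pos hc, dif_pos hc'] at hcc
  have hyy : y c hc = y c' hc' := congrArg Subtype.val (hg hcc)
  intro γ hγ
  have h1 := hy c hc γ hγ
  have h2 : BFR S' S Y X γ (insert (y c hc, c') (range fun i => (b i, a i))) := by
    refine (hy c' hc' γ hγ).symm ?_
    rintro z (rfl | ⟨i, rfl⟩)
    · exact Or.inl (by rw [hyy])
    · exact Or.inr ⟨i, rfl⟩
  refine h1.trans h2 ?_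
  rintro z (rfl | ⟨x, hx, rfl⟩)
  · exact ⟨y c hc, Or.inl rfl, Or.inl rfl⟩
  · obtain ⟨i, rfl⟩ := haF x hx
    exact ⟨b i, Or.inr ⟨i, rfl⟩, Or.inr ⟨i, rfl⟩⟩

theorem TameX.small {S : L.Structure M} {X : Set M} (h : TameX S X) : Small S X := by
  intro γ hγ F hF
  obtain ⟨κ, hκ⟩ := h.types F hF
  exact ⟨κ, fun c hc c' hc' hcc => hκ c hc c' hc' hcc γ hγ⟩

/-- witnesses from types -/
theorem exists_wit_of_inf {S : L.Structure M} {X : Set M}
    (h : ∀ F : Finset M, (F : Set M) ⊆ X → ∃ κ : M → ℕ, ∀ c ∈ X, ∀ c' ∈ X, κ c = κ c' →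
      BFI S S X X (insert (c, c') (dg (F : Set M)))) :
    ∃ f : Finset M → Set M, (∀ F, (f F).Countable) ∧ (∀ F, f F ⊆ X) ∧
      ∀ F : Finset M, (F : Set M) ⊆ X → ∀ c ∈ X, ∃ d ∈ f F,
        BFI S S X X (insert (c, d) (dg (F : Set M))) := by
  classical
  have hch : ∀ F : Finset M, ∃ R : Set M, R.Countable ∧ R ⊆ X ∧
      ((F : Set M) ⊆ X → ∀ c ∈ X, ∃ d ∈ R, BFI S S X X (insert (c, d) (dg (F : Set M)))) := by
    intro F
    by_cases hF : (F : Set M) ⊆ X
    · obtain ⟨κ, hκ⟩ := h F hF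
      obtain ⟨R, hR1, hR2, hR3⟩ := exists_reps (X := X) κ
      refine ⟨R, hR1, hR2, fun _ c hc => ?_⟩
      obtain ⟨d, hd, hcd⟩ := hR3 c hc
      exact ⟨d, hd, hκ c hc d (hR2 hd) hcd⟩
    · exact ⟨∅, countable_empty, empty_subset _, fun h1 => absurd h1 hF⟩
  choose f hf1 hf2 hf3 using hch
  exact ⟨f, hf1, hf2, hf3⟩

/-- countable sets of witnesses for a tame piece, for all levels -/
theorem TameX.exists_wit {S : L.Structure M} {X : Set M} (h : TameX S X) :
    ∃ f : Finset M → Set M, (∀ F, (f F).Countable) ∧ (∀ F, f F ⊆ X) ∧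
      ∀ F : Finset M, (F : Set M) ⊆ X → ∀ c ∈ X, ∃ d ∈ f F,
        BFI S S X X (insert (c, d) (dg (F : Set M))) :=
  exists_wit_of_inf h.types

theorem exists_closed_of_wit {S : L.Structure M} {X : Set M} {f : Finset M → Set M}
    (hf : ∀ F, (f F).Countable) (hfX : ∀ F, f F ⊆ X)
    (hw : ∀ F : Finset M, (F : Set M) ⊆ X → ∀ c ∈ X, ∃ d ∈ f F,
        BFI S S X X (insert (c, d) (dg (F : Set M)))) {A₀ : Set M}
    (hA₀ : A₀.Countable) (hA₀X : A₀ ⊆ X) : ∃ B : Set M, B.Countable ∧ A₀ ⊆ B ∧ B ⊆ X ∧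
      ∀ F : Finset M, (F : Set M) ⊆ B → ∀ c ∈ X, ∃ d ∈ B,
        BFI S S X X (insert (c, d) (dg (F : Set M))) := by
  obtain ⟨A, hA, hcl⟩ := exists_closed (fun F => f F ∪ A₀) (fun F => (hf F).union hA₀)
  refine ⟨A ∩ X, hA.mono inter_subset_left, ?_, inter_subset_right, fun F hF c hc => ?_⟩
  · intro x hx
    exact ⟨hcl ∅ (by simp) (Or.inr hx), hA₀X hx⟩
  · obtain ⟨d, hd, hcd⟩ := hw F (hF.trans inter_subset_right) c hc
    exact ⟨d, ⟨hcl F (hF.trans inter_subset_left) (Or.inl hd), hfX F hd⟩, hcd⟩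

theorem TameX.exists_closed {S : L.Structure M} {X : Set M} (h : TameX S X) {A₀ : Set M}
    (hA₀ : A₀.Countable) (hA₀X : A₀ ⊆ X) : ∃ B : Set M, B.Countable ∧ A₀ ⊆ B ∧ B ⊆ X ∧
      ∀ F : Finset M, (F : Set M) ⊆ B → ∀ c ∈ X, ∃ d ∈ B,
        BFI S S X X (insert (c, d) (dg (F : Set M))) := by
  obtain ⟨f, h1, h2, h3⟩ := h.exists_wit
  exact exists_closed_of_wit h1 h2 h3 hA₀ hA₀X

theorem tameX_of_closed {S : L.Structure M} {X B : Set M} (hB : B.Countable) (hBX : B ⊆ X)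
    (h : ∀ F : Finset M, (F : Set M) ⊆ B → ∀ c ∈ X, ∃ d ∈ B,
        BFI S S X X (insert (c, d) (dg (F : Set M)))) : TameX S X := by
  refine ⟨M, S, B, hB, fun γ hγ => ?_⟩
  have hclo : Clo S X γ B := by
    intro F hF c hc
    obtain ⟨d, hd, hcd⟩ := h F (hF.trans inter_subset_left) c hc
    exact ⟨d, ⟨hd, hBX hd⟩, hcd γ hγ⟩
  have h1 := hclo.bfr finite_empty (empty_subset _)
  rw [inter_eq_left.2 hBX] at h1
  exact BFR.anti (empty_subset _) h1

theorem tameX_of_clo {S : L.Structure M} {X A : Set M} (hA : A.Countable)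
    (h : ∀ γ < om1, Clo S X γ A) : TameX S X :=
  ⟨M, S, A ∩ X, hA.mono inter_subset_left, fun γ hγ =>
    BFR.anti (empty_subset _) ((h γ hγ).bfr finite_empty (empty_subset _))⟩

/-- countably many types of all levels over finite sets -/
theorem tameX_of_inf {S : L.Structure M} {X : Set M}
    (h : ∀ F : Finset M, (F : Set M) ⊆ X → ∃ κ : M → ℕ, ∀ c ∈ X, ∀ c' ∈ X, κ c = κ c' →
      BFI S S X X (insert (c, c') (dg (F : Set M)))) : TameX S X := by
  obtain ⟨f, h1, h2, h3⟩ := exists_wit_of_inf h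
  obtain ⟨B, hB1, _, hB3, hB4⟩ := exists_closed_of_wit h1 h2 h3 countable_empty (empty_subset _)
  exact tameX_of_closed hB1 hB3 hB4

/-- a small piece with a countable Scott level is tame -/
theorem SL.tame {S : L.Structure M} {X : Set M} (h : Small S X) {α : Ordinal.{0}} (hα : α < om1)
    (hSL : SL S X α) : TameX S X := by
  refine tameX_of_inf fun F hF => ?_
  obtain ⟨κ, hκ⟩ := h α hα F hF
  refine ⟨κ, fun c hc c' hc' hcc => hSL _ ((F.finite_toSet.image _).insert _) ?_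
    (hκ c hc c' hc' hcc)⟩
  rintro z (rfl | ⟨x, hx, rfl⟩)
  · exact ⟨hc, hc'⟩
  · exact ⟨hF hx, hF hx⟩

/-- definable subpieces of tame pieces are tame -/
theorem TameX.sub {S : L.Structure M} {X X' : Set M} (h : TameX S X) (F : Finset M)
    (hF : (F : Set M) ⊆ X) (hX' : X' ⊆ X) {κ : Ordinal.{0}} (hκ : κ < om1)
    (H : ∀ c ∈ X, ∀ c' ∈ X, BFR S S X X κ (insert (c, c') (dg (F : Set M))) →
      (c ∈ X' ↔ c' ∈ X')) : TameX S X' := by
  classical
  refine tameX_of_inf fun G hG => ?_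
  obtain ⟨ρ, hρ⟩ := h.types (F ∪ G) (by
    rw [Finset.coe_union]
    exact union_subset hF (hG.trans hX'))
  refine ⟨ρ, fun c hc c' hc' hcc γ hγ => ?_⟩
  have h1 := hρ c (hX' hc) c' (hX' hc') hcc (κ + γ) (add_lt_om1 hκ hγ)
  have h2 := BFR.restr hX' hX' κ γ (p := insert (c, c') (dg ((F ∪ G : Finset M) : Set M)))
    (fun x hx y hy hxy => H x hx y hy (BFR.anti (insert_subset_insert ?_) hxy)) h1
  · refine BFR.anti (insert_subset_insert (image_mono ?_)) h2
    rw [Finset.coe_union]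
    exact subset_union_right
  · refine (image_mono ?_).trans (subset_insert _ _)
    rw [Finset.coe_union]
    exact subset_union_left

/-- a relation stronger than that of `S` at level `η` over `q` -/
theorem BFR.expand {L' : FirstOrder.Language.{0, 0}} {S : L.Structure M} {T : L.Structure N}
    {S' : L'.Structure M} {T' : L'.Structure N} {X : Set M} {Y : Set N} {q : Set (M × N)}
    {η : Ordinal.{0}}
    (H : ∀ p : Set (M × N), p.Finite → q ⊆ p → BFR S T X Y η p → AtEq S' T' p)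
    (γ : Ordinal.{0}) : ∀ {p : Set (M × N)}, p.Finite → q ⊆ p → BFR S T X Y (η + γ) p →
      BFR S' T' X Y γ p := by
  induction γ using WellFoundedLT.induction with
  | _ γ ih =>
    intro p hp hq h
    rw [BFR.def]
    refine ⟨H p hp hq (h.mono le_self_add), fun β hβ => ⟨fun x hx => ?_, fun y hy => ?_⟩⟩
    · obtain ⟨y, hyY, hy⟩ := h.forth (add_lt_add_right hβ η) hx
      exact ⟨y, hyY, ih β hβ (hp.insert _) (hq.trans (subset_insert _ _)) hy⟩
    · obtain ⟨x, hxX, hx⟩ := h.back (add_lt_add_right hβ η) hy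
      exact ⟨x, hxX, ih β hβ (hp.insert _) (hq.trans (subset_insert _ _)) hx⟩

/-- the same for pairs in the pieces -/
theorem BFR.expand' {L' : FirstOrder.Language.{0, 0}} {S : L.Structure M} {T : L.Structure N}
    {S' : L'.Structure M} {T' : L'.Structure N} {X : Set M} {Y : Set N} {q : Set (M × N)}
    {η : Ordinal.{0}}
    (H : ∀ p : Set (M × N), p.Finite → (∀ a ∈ p, a.1 ∈ X ∧ a.2 ∈ Y) → q ⊆ p →
      BFR S T X Y η p → AtEq S' T' p)
    (γ : Ordinal.{0}) : ∀ {p : Set (M × N)}, p.Finite → (∀ a ∈ p, a.1 ∈ X ∧ a.2 ∈ Y) → q ⊆ p →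
      BFR S T X Y (η + γ) p → BFR S' T' X Y γ p := by
  induction γ using WellFoundedLT.induction with
  | _ γ ih =>
    intro p hp hpX hq h
    rw [BFR.def]
    refine ⟨H p hp hpX hq (h.mono le_self_add), fun β hβ => ⟨fun x hx => ?_, fun y hy => ?_⟩⟩
    · obtain ⟨y, hyY, hy⟩ := h.forth (add_lt_add_right hβ η) hx
      refine ⟨y, hyY, ih β hβ (hp.insert _) ?_ (hq.trans (subset_insert _ _)) hy⟩
      rintro a (rfl | ha)
      exacts [⟨hx, hyY⟩, hpX a ha]
    · obtain ⟨x, hxX, hx⟩ := h.back (add_lt_add_right hβ η) hy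
      refine ⟨x, hxX, ih β hβ (hp.insert _) ?_ (hq.trans (subset_insert _ _)) hx⟩
      rintro a (rfl | ha)
      exacts [⟨hxX, hy⟩, hpX a ha]

/-- the same for a relation which is already finer on the atomic level -/
theorem BFR.reduct {L' : FirstOrder.Language.{0, 0}} {S : L.Structure M} {T : L.Structure N}
    {S' : L'.Structure M} {T' : L'.Structure N} {X : Set M} {Y : Set N}
    (H : ∀ p : Set (M × N), p.Finite → (∀ a ∈ p, a.1 ∈ X ∧ a.2 ∈ Y) → AtEq S' T' p → AtEq S T p)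
    (γ : Ordinal.{0}) : ∀ {p : Set (M × N)}, p.Finite → (∀ a ∈ p, a.1 ∈ X ∧ a.2 ∈ Y) →
      BFR S' T' X Y γ p → BFR S T X Y γ p := by
  induction γ using WellFoundedLT.induction with
  | _ γ ih =>
    intro p hp hpX h
    rw [BFR.def]
    refine ⟨H p hp hpX h.atEq, fun β hβ => ⟨fun x hx => ?_, fun y hy => ?_⟩⟩
    · obtain ⟨y, hyY, hy⟩ := h.forth hβ hx
      refine ⟨y, hyY, ih β hβ (hp.insert _) ?_ hy⟩
      rintro a (rfl | ha)
      exacts [⟨hx, hyY⟩, hpX a ha]
    · obtain ⟨x, hxX, hx⟩ := h.back hβ hy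
      refine ⟨x, hxX, ih β hβ (hp.insert _) ?_ hx⟩
      rintro a (rfl | ha)
      exacts [⟨hxX, hy⟩, hpX a ha]

theorem TameX.expand {L' : FirstOrder.Language.{0, 0}} {S : L.Structure M} {S' : L'.Structure M}
    {X : Set M} (h : TameX S X) (F : Finset M) (hF : (F : Set M) ⊆ X) {η : Ordinal.{0}}
    (hη : η < om1) (H : ∀ p : Set (M × M), p.Finite → (∀ a ∈ p, a.1 ∈ X ∧ a.2 ∈ X) →
      dg (F : Set M) ⊆ p → BFR S S X X η p → AtEq S' S' p) : TameX S' X := by
  classical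
  refine tameX_of_inf fun G hG => ?_
  obtain ⟨ρ, hρ⟩ := h.types (F ∪ G) (by
    rw [Finset.coe_union]
    exact union_subset hF hG)
  refine ⟨ρ, fun c hc c' hc' hcc γ hγ => ?_⟩
  have h1 := hρ c hc c' hc' hcc (η + γ) (add_lt_om1 hη hγ)
  have h2 := BFR.expand' (q := dg (F : Set M)) H γ
    (p := insert (c, c') (dg ((F ∪ G : Finset M) : Set M)))
    (((F ∪ G).finite_toSet.image _).insert _) (by
      rintro z (rfl | ⟨x, hx, rfl⟩)
      · exact ⟨hc, hc'⟩
      · rw [Finset.coe_union] at hx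
        exact ⟨union_subset hF hG hx, union_subset hF hG hx⟩) (by
      refine (image_mono ?_).trans (subset_insert _ _)
      rw [Finset.coe_union]
      exact subset_union_left) h1
  refine BFR.anti (insert_subset_insert (image_mono ?_)) h2
  rw [Finset.coe_union]
  exact subset_union_right

theorem TameX.reduct {L' : FirstOrder.Language.{0, 0}} {S : L.Structure M} {S' : L'.Structure M}
    {X : Set M} (h : TameX S' X) (H : ∀ p : Set (M × M), p.Finite →
      (∀ a ∈ p, a.1 ∈ X ∧ a.2 ∈ X) → AtEq S' S' p → AtEq S S p) : TameX S X := by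
  refine tameX_of_inf fun F hF => ?_
  obtain ⟨ρ, hρ⟩ := h.types F hF
  refine ⟨ρ, fun c hc c' hc' hcc γ hγ => ?_⟩
  refine BFR.reduct H γ ((F.finite_toSet.image _).insert _) ?_ (hρ c hc c' hc' hcc γ hγ)
  rintro z (rfl | ⟨x, hx, rfl⟩)
  · exact ⟨hc, hc'⟩
  · exact ⟨hF hx, hF hx⟩

/-- a piece of a substructure -/
theorem BFR_pl_piece [∀ n, IsEmpty (L.Functions n)] {S : L.Structure M} {e : N → M}
    (he : Function.Injective e) (X : Set N) (γ : Ordinal.{0}) :
    BFR (pl S e) S X (e '' X) γ {a | a.1 ∈ X ∧ a.2 = e a.1} :=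
  BFR.of_map e he.injOn rfl (fun n R v _ => Iff.rfl) γ fun a ha => ha

/-- pieces and substructures -/
theorem tameX_pl [∀ n, IsEmpty (L.Functions n)] {S : L.Structure M} {e : N → M}
    (he : Function.Injective e) {X : Set N} : TameX (pl S e) X ↔ TameX S (e '' X) := by
  have h1 : ∀ γ < om1, BFR (pl S e) S X (e '' X) γ ∅ := fun γ _ =>
    BFR.anti (empty_subset _) (BFR_pl_piece he X γ)
  exact ⟨fun h => h.congr h1, fun h => h.congr fun γ hγ =>
    (h1 γ hγ).symm fun a ha => absurd ha (notMem_empty a)⟩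

theorem SL_pl [∀ n, IsEmpty (L.Functions n)] {S : L.Structure M} {e : N → M}
    (he : Function.Injective e) {X : Set N} {α : Ordinal.{0}} :
    SL (pl S e) X α ↔ SL S (e '' X) α := by
  have hsymm : ∀ γ, BFR S (pl S e) (e '' X) X γ {a | a.2 ∈ X ∧ a.1 = e a.2} := fun γ =>
    (BFR_pl_piece he X γ).symm fun a ha => ha
  constructor
  · intro h p hp hpX hb γ hγ
    let q : Set (N × N) := {a | a.1 ∈ X ∧ a.2 ∈ X ∧ (e a.1, e a.2) ∈ p}
    have hq : q.Finite := by
      refine Finite.subset (hp.preimage (f := fun a : N × N => (e a.1, e a.2)) ?_) fun a ha => ha.2.2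
      intro a _ b _ hab
      exact Prod.ext (he (congrArg Prod.fst hab)) (he (congrArg Prod.snd hab))
    have h1 : BFR (pl S e) (pl S e) X X α q := by
      have h2 : BFR (pl S e) S X (e '' X) α {a | a.1 ∈ X ∧ (e a.1, a.2) ∈ p} :=
        (BFR_pl_piece he X α).trans hb fun a ha => ⟨e a.1, ⟨ha.1, rfl⟩, ha.2⟩
      exact h2.trans (hsymm α) fun a ha => ⟨e a.2, ⟨ha.1, ha.2.2⟩, ha.2.1, rfl⟩
    have h3 := h q hq (fun a ha => ⟨ha.1, ha.2.1⟩) h1 γ hγ
    have h4 : BFR S (pl S e) (e '' X) X γ {a | a.2 ∈ X ∧ (a.1, e a.2) ∈ p} := by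
      refine (hsymm γ).trans h3 fun a ha => ?_
      obtain ⟨x, hx, hxa⟩ := (hpX _ ha.2).1
      have hxa' : e x = a.1 := hxa
      exact ⟨x, ⟨hx, hxa'.symm⟩, hx, ha.1, by rw [hxa']; exact ha.2⟩
    refine h4.trans (BFR_pl_piece he X γ) fun a ha => ?_
    obtain ⟨x, hx, hxa⟩ := (hpX _ ha).2
    exact ⟨x, ⟨hx, by rw [hxa]; exact ha⟩, hx, hxa.symm⟩
  · intro h p hp hpX hb γ hγ
    let q : Set (M × M) := (fun a : N × N => (e a.1, e a.2)) '' p
    have hq : q.Finite := hp.image _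
    have h1 : BFR S S (e '' X) (e '' X) α q := by
      have h2 : BFR S (pl S e) (e '' X) X α {a | ∃ x, a.1 = e x ∧ (x, a.2) ∈ p} := by
        refine (hsymm α).trans hb ?_
        rintro a ⟨x, hx, hxp⟩
        exact ⟨x, ⟨(hpX _ hxp).1, hx⟩, hxp⟩
      refine h2.trans (BFR_pl_piece he X α) ?_
      rintro _ ⟨a, ha, rfl⟩
      exact ⟨a.2, ⟨a.1, rfl, ha⟩, (hpX a ha).2, rfl⟩
    have h3 := h q hq (by
      rintro _ ⟨a, ha, rfl⟩
      exact ⟨mem_image_of_mem _ (hpX a ha).1, mem_image_of_mem _ (hpX a ha).2⟩) h1 γ hγ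
    have h4 : BFR (pl S e) S X (e '' X) γ {a | a.1 ∈ X ∧ (e a.1, a.2) ∈ q} :=
      (BFR_pl_piece he X γ).trans h3 fun a ha => ⟨e a.1, ⟨ha.1, rfl⟩, ha.2⟩
    exact h4.trans (hsymm γ) fun a ha =>
      ⟨e a.2, ⟨(hpX a ha).1, ⟨a, ha, rfl⟩⟩, (hpX a ha).2, rfl⟩

/-- with symbols of arity at most two atomic equivalence is decided by pairs -/
theorem atEq_of_pairs (hL : Ar2 L) {S : L.Structure M} {S' : L.Structure N} {p : Set (M × N)}
    (h : ∀ a ∈ p, ∀ b ∈ p, AtEq S S' {a, b}) : AtEq S S' p := by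
  refine ⟨fun a ha b hb => (h a ha b hb).1 a (by simp) b (by simp), fun n R v hv => ?_⟩
  by_cases h1 : n = 1
  · subst h1
    refine (h _ (hv 0) _ (hv 0)).2 1 R v fun i => ?_
    rw [Fin.fin_one_eq_zero i]
    simp
  · by_cases h2 : n = 2
    · subst h2
      refine (h _ (hv 0) _ (hv 1)).2 2 R v fun i => ?_
      refine Fin.cases ?_ (fun j => ?_) i
      · simp
      · rw [Fin.fin_one_eq_zero j]
        simp
    · exact ((hL n h1 h2).false R).elim

/-- atomic equivalence of a pair, from the unary types and the binary type -/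
theorem atEq_pair (hL : Ar2 L) {S : L.Structure M} {S' : L.Structure N} {a b : M × N}
    (ha : AtEq S S' {a}) (hb : AtEq S S' {b}) (hab : a.1 = b.1 ↔ a.2 = b.2)
    (h : bt S a.1 b.1 = bt S' a.2 b.2) : AtEq S S' {a, b} := by
  refine ⟨?_, fun n R v hv => ?_⟩
  · rintro x (rfl | rfl) y (rfl | rfl)
    · simp
    · exact hab
    · exact ⟨fun h => (hab.1 h.symm).symm, fun h => (hab.2 h.symm).symm⟩
    · simp
  · by_cases h1 : n = 1
    · subst h1
      rcases hv 0 with h0 | h0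
      · exact ha.2 1 R v fun i => by rw [Fin.fin_one_eq_zero i]; exact h0
      · exact hb.2 1 R v fun i => by rw [Fin.fin_one_eq_zero i]; exact h0
    · by_cases h2 : n = 2
      · subst h2
        have e1 : (fun i => (v i).1) = ![(v 0).1, (v 1).1] := by
          funext i
          fin_cases i <;> rfl
        have e2 : (fun i => (v i).2) = ![(v 0).2, (v 1).2] := by
          funext i
          fin_cases i <;> rfl
        have hbt1 : S.RelMap R ![a.1, b.1] ↔ S'.RelMap R ![a.2, b.2] := by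
          have := congrArg Prod.fst h
          exact Set.ext_iff.1 this R
        have hbt2 : S.RelMap R ![b.1, a.1] ↔ S'.RelMap R ![b.2, a.2] := by
          have := congrArg Prod.snd h
          exact Set.ext_iff.1 this R
        rcases hv 0 with h0 | h0 <;> rcases hv 1 with h3 | h3
        · refine ha.2 2 R v fun i => ?_
          refine Fin.cases h0 (fun j => ?_) i
          rw [Fin.fin_one_eq_zero j]
          exact h3
        · rw [e1, e2, h0, h3]
          exact hbt1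
        · rw [e1, e2, h0, h3]
          exact hbt2
        · refine hb.2 2 R v fun i => ?_
          refine Fin.cases h0 (fun j => ?_) i
          rw [Fin.fin_one_eq_zero j]
          exact h3
      · exact ((hL n h1 h2).false R).elim

end Pool.Agent.Helper97.LO
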